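import Mathlib
import Pool.Agent.X19.TR.Final

/-!
# MP_f7849a_an : the sign of the lambda-derivative of the transport solution

There are a bounded open set `V` of `R^3` and a phase-space point `P` at which the
`lambda`-derivative of `M_lambda(P)` at `lambda = 1` is negative.

Idea: `V` is a very thin box (length 5) whose last part (at distance `> 1` from `P`) is a box that
is small but much less thin.  With `phi`, `nu` the angular averages of `M_1` and of its
`lambda`-derivative `N` one has `N(P) = int_0^D e^{-x} [(1 - x) phi + nu]`, where `phi` is almost `0`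
in the thin part, `phi >= e/4` in the middle of the thick part (half-width `e`), and
`nu = O(e^{4/3})`.
-/

open MeasureTheory Set
open Pool.Agent.X19.TR

namespace Pool.Agent.Results.MP_f7849a_an.NegativeDerivative

/-- There are a bounded open `V`, a point `r ∈ V` and a direction `o` such that, for the unique
bounded measurable solutions `M lam` (`lam > 0`), the derivative of `lam ↦ M lam (r, o)` at `1`
exists and is negative. -/
theorem result : ∃ V : Set E3, IsOpen V ∧ Bornology.IsBounded V ∧
    ∃ (r : E3) (o : S2), r ∈ V ∧ ∃ M : ℝ → E3 × S2 → ℝ,
      (∀ lam, 0 < lam → IsSol V lam (M lam) ∧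
        ∀ M', IsSol V lam M' → ∀ r' ∈ V, ∀ o' : S2, M' (r', o') = M lam (r', o')) ∧
      ∃ c : ℝ, c < 0 ∧ HasDerivAt (fun lam => M lam (r, o)) c 1 :=
  main

end Pool.Agent.Results.MP_f7849a_an.NegativeDerivative
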